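import Pool.Agent.Hhelper14.SAW.Final

/-!
From the growth of `a_n` and an upper bound `C μ^n exp(n^ε)` to the non-intersection probabilities: there is a good
length in every window `[n, n^(1+θ)]`.
-/

namespace Pool.Agent.H34x

open Filter Topology Pool.Agent.Hhelper14.Honeycomb Pool.Agent.Hhelper14.SAW

/-- Upper bound for the ratio `A (2m) / A m ^ 2` at some scale between `n` and `n ^ (1 + θ)`. -/
theorem ratio_window (A : ℕ → ℝ) (m0 : ℝ) (hm0 : 0 < m0) (δ : ℝ) (hδ : 0 < δ) (c : ℝ) (hc : 0 < c)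
    (hlow : ∀ n : ℕ, 1 ≤ n → c * (n : ℝ) ^ δ * m0 ^ n ≤ A n) (θ : ℝ) (hθ : 0 < θ) (C : ℝ) (hC : 0 < C)
    (hup : ∀ n : ℕ, 1 ≤ n → A n ≤ C * m0 ^ n * Real.exp ((n : ℝ) ^ (θ / (1 + θ)))) :
    ∃ K : ℝ, 0 < K ∧ ∀ n : ℕ, 2 ≤ n → ∃ m : ℕ, n ≤ m ∧ (m : ℝ) ≤ (n : ℝ) ^ (1 + θ) ∧
      A (2 * m) / (A m) ^ 2 ≤ K * (m : ℝ) ^ (-δ) := by
  have hApos : ∀ n : ℕ, 1 ≤ n → 0 < A n := fun n hn => by
    refine lt_of_lt_of_le ?_ (hlow n hn)
    have : (0 : ℝ) < n := by exact_mod_cast hn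
    positivity
  set ε : ℝ := θ / (1 + θ) with hε
  have hθ1 : 0 < 1 + θ := by linarith
  have hε0 : 0 < ε := by positivity
  have hε1 : ε ≤ 1 := by rw [hε, div_le_one hθ1]; linarith
  set L : ℕ → ℝ := fun n => Real.log (A n) - n * Real.log m0 with hL
  have hL1 : ∀ n : ℕ, 1 ≤ n → Real.log c + δ * Real.log n ≤ L n := by
    intro n hn
    have hn0 : (0 : ℝ) < n := by exact_mod_cast hn
    have h1 := Real.log_le_log (by positivity) (hlow n hn)
    rw [Real.log_mul (by positivity) (by positivity), Real.log_mul (by positivity) (by positivity),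
      Real.log_rpow hn0, Real.log_pow] at h1
    simp only [hL]; linarith
  have hL2 : ∀ n : ℕ, 1 ≤ n → L n ≤ Real.log C + (n : ℝ) ^ ε := by
    intro n hn
    have h1 := Real.log_le_log (hApos n hn) (hup n hn)
    rw [Real.log_mul (by positivity) (by positivity), Real.log_mul (by positivity) (by positivity), Real.log_exp,
      Real.log_pow] at h1
    simp only [hL]; linarith
  set κ : ℝ := 2 * (δ * Real.log 2 + |Real.log C| + 2 + |Real.log c| + 1) with hκ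
  have hlog2 : 0 < Real.log 2 := Real.log_pos (by norm_num)
  have hκ0 : 0 < κ := by positivity
  refine ⟨Real.exp κ, Real.exp_pos _, ?_⟩
  intro n hn
  by_contra hcon
  push Not at hcon
  have hn0 : (0 : ℝ) < n := by positivity
  have hn1 : (1 : ℝ) ≤ n := by exact_mod_cast (by omega : 1 ≤ n)
  obtain ⟨J, hJ0, hJ1, hJ2⟩ : ∃ J : ℕ, 1 ≤ J ∧ (2 : ℝ) ^ (J - 1) ≤ (n : ℝ) ^ θ ∧ (n : ℝ) ^ θ < 2 ^ J := by
    have h1 : (1 : ℝ) ≤ (n : ℝ) ^ θ := Real.one_le_rpow hn1 hθ.le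
    obtain ⟨k, hk1, hk2⟩ := exists_nat_pow_near h1 (by norm_num : (1 : ℝ) < 2)
    exact ⟨k + 1, by omega, by simpa using hk1, hk2⟩
  have hstep : ∀ j < J, L (2 ^ j * n) ≤ L (2 ^ (j + 1) * n) / 2 +
      (δ * Real.log ((2 ^ j * n : ℕ) : ℝ) - κ) / 2 := by
    intro j hj
    have e1 : n ≤ 2 ^ j * n := Nat.le_mul_of_pos_left _ (by positivity)
    have e2 : ((2 ^ j * n : ℕ) : ℝ) ≤ (n : ℝ) ^ (1 + θ) := by
      have h1 : (2 : ℝ) ^ j ≤ 2 ^ (J - 1) := pow_le_pow_right₀ (by norm_num) (by omega)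
      rw [Real.rpow_add hn0, Real.rpow_one]
      push_cast
      nlinarith
    have e3 := hcon (2 ^ j * n) e1 e2
    have e4 : 2 * (2 ^ j * n) = 2 ^ (j + 1) * n := by rw [pow_succ]; ring
    rw [e4] at e3
    have m1 : 1 ≤ 2 ^ j * n := by omega
    have m2 : 1 ≤ 2 ^ (j + 1) * n := by rw [← e4]; omega
    have p1 := hApos _ m1
    have p2 := hApos _ m2
    have p3 : (0 : ℝ) < ((2 ^ j * n : ℕ) : ℝ) := by exact_mod_cast m1
    have e5 := Real.log_lt_log (by positivity) e3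
    rw [Real.log_mul (by positivity) (by positivity), Real.log_exp, Real.log_rpow p3,
      Real.log_div (by positivity) (by positivity), Real.log_pow] at e5
    simp only [hL]
    have e6 : ((2 ^ (j + 1) * n : ℕ) : ℝ) = 2 * ((2 ^ j * n : ℕ) : ℝ) := by
      rw [← e4]; push_cast; ring
    rw [e6]
    push_cast at e5 ⊢
    linarith
  have h1 := dyadic_iter L n (by omega) δ κ J hstep
  have hpos : 1 ≤ 2 ^ J * n := Nat.one_le_iff_ne_zero.2 (by positivity)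
  have h2 := hL2 (2 ^ J * n) hpos
  have h3 := hL1 n (by omega)
  have hhalf : ((1 : ℝ) / 2) ^ J ≤ 1 / 2 := by
    have : ((1 : ℝ) / 2) ^ J ≤ (1 / 2) ^ 1 := pow_le_pow_of_le_one (by norm_num) (by norm_num) (by omega)
    simpa using this
  have hhalf0 : (0 : ℝ) < (1 / 2) ^ J := by positivity
  have hlogn : 0 ≤ Real.log n := Real.log_nonneg hn1
  have h4 : (1 / 2 : ℝ) ^ J * L (2 ^ J * n) ≤ |Real.log C| + 2 := by
    have e1 : ((2 ^ J * n : ℕ) : ℝ) ^ ε ≤ 2 * 2 ^ J := by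
      have e2 : ((2 ^ J * n : ℕ) : ℝ) ≤ 2 * (n : ℝ) ^ (1 + θ) := by
        obtain ⟨k, rfl⟩ : ∃ k, J = k + 1 := ⟨J - 1, by omega⟩
        rw [Nat.add_sub_cancel] at hJ1
        rw [Real.rpow_add hn0, Real.rpow_one]
        push_cast
        rw [pow_succ]
        nlinarith
      have e3 : ((2 ^ J * n : ℕ) : ℝ) ^ ε ≤ (2 * (n : ℝ) ^ (1 + θ)) ^ ε :=
        Real.rpow_le_rpow (by positivity) e2 hε0.le
      have e4 : (2 * (n : ℝ) ^ (1 + θ)) ^ ε = 2 ^ ε * (n : ℝ) ^ θ := by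
        rw [Real.mul_rpow (by norm_num) (by positivity), ← Real.rpow_mul hn0.le]
        congr 2
        rw [hε]; field_simp
      have e5 : (2 : ℝ) ^ ε ≤ 2 := by
        calc (2 : ℝ) ^ ε ≤ 2 ^ (1 : ℝ) := Real.rpow_le_rpow_of_exponent_le (by norm_num) hε1
          _ = 2 := Real.rpow_one 2
      have e6 : (0 : ℝ) < (2 : ℝ) ^ ε := by positivity
      rw [e4] at e3
      have e7 : (0 : ℝ) ≤ (n : ℝ) ^ θ := by positivity
      nlinarith
    have e2 : L (2 ^ J * n) ≤ |Real.log C| + 2 * 2 ^ J := by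
      have := le_abs_self (Real.log C)
      linarith
    have e3 := mul_le_mul_of_nonneg_left e2 hhalf0.le
    have e4 : (1 / 2 : ℝ) ^ J * (|Real.log C| + 2 * 2 ^ J) = (1 / 2 : ℝ) ^ J * |Real.log C| + 2 := by
      have : (1 / 2 : ℝ) ^ J * 2 ^ J = 1 := by rw [← mul_pow]; norm_num
      calc (1 / 2 : ℝ) ^ J * (|Real.log C| + 2 * 2 ^ J)
          = (1 / 2 : ℝ) ^ J * |Real.log C| + 2 * ((1 / 2 : ℝ) ^ J * 2 ^ J) := by ring
        _ = _ := by rw [this]; ring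
    have e5 := abs_nonneg (Real.log C)
    nlinarith
  have h5 : (δ * Real.log n - κ) * (1 - (1 / 2) ^ J) ≤ δ * Real.log n - κ / 2 := by
    have e1 : 0 ≤ δ * Real.log n * (1 / 2) ^ J := by positivity
    nlinarith
  have h6 : δ * Real.log 2 * (1 - (J + 1) * (1 / 2) ^ J) ≤ δ * Real.log 2 := by
    have e1 : 0 ≤ δ * Real.log 2 * ((J + 1) * (1 / 2) ^ J) := by positivity
    nlinarith
  have h7 : -|Real.log c| ≤ Real.log c := neg_abs_le _
  have h8 : κ / 2 = δ * Real.log 2 + |Real.log C| + 2 + |Real.log c| + 1 := by rw [hκ]; ring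
  linarith

/-- If `a_n ≤ C μ^n exp(n^ε)` for every `ε > 0`, then every window `[n, n^(1+θ)]` contains a length `m` with
`P_m ≤ C m^(-1/10000)`. -/
theorem window (hup : ∀ ε : ℝ, 0 < ε → ∃ C : ℝ, 0 < C ∧ ∀ n : ℕ, 1 ≤ n →
      (a n : ℝ) ≤ C * muL ^ n * Real.exp ((n : ℝ) ^ ε)) (θ : ℝ) (hθ : 0 < θ) :
    ∃ C : ℝ, 0 < C ∧ ∀ n : ℕ, 2 ≤ n → ∃ m : ℕ, n ≤ m ∧ (m : ℝ) ≤ (n : ℝ) ^ (1 + θ) ∧
      P m ≤ C * (m : ℝ) ^ (-(1 / 10000) : ℝ) := by
  obtain ⟨c, hc, hlow⟩ := final.1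
  obtain ⟨C, hC, hC2⟩ := hup (θ / (1 + θ)) (by positivity)
  have hmu : 0 < muL := by
    have h1 := hlow 1 le_rfl
    have h2 := hC2 1 le_rfl
    have h3 : (0 : ℝ) < a 1 := a_pos 1
    have h4 := lt_of_lt_of_le h3 h2
    by_contra hneg
    push Not at hneg
    have h5 : C * muL ^ 1 * Real.exp (((1 : ℕ) : ℝ) ^ (θ / (1 + θ))) ≤ 0 := by
      have := Real.exp_pos (((1 : ℕ) : ℝ) ^ (θ / (1 + θ)))
      rw [pow_one]
      nlinarith [mul_nonneg hC.le this.le, mul_nonneg (mul_nonneg hC.le this.le) (neg_nonneg.2 hneg)]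
    linarith
  obtain ⟨K, hK, h⟩ := ratio_window (fun n => (a n : ℝ)) muL hmu (1 / 10000) (by norm_num) c hc hlow θ hθ C hC hC2
  refine ⟨K, hK, fun n hn => ?_⟩
  obtain ⟨m, h1, h2, h3⟩ := h n hn
  exact ⟨m, h1, h2, by rw [P_eq]; exact h3⟩

end Pool.Agent.H34x
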